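import Mathlib

set_option autoImplicit false

/-!
Primitive tensors of maximal primitive degree: the combinatorial core, for the monotone set map
attached to the positivity pattern of a tensor.
-/

namespace Pool.Agent.Q216.PT

variable {V : Type} {k : ℕ}

/-- The set map attached to the pattern `R` (with `R u t` meaning `a_{u t_1 ... t_k} > 0`). -/
def Tm (R : V → (Fin k → V) → Prop) (S : Set V) : Set V :=
  {u | ∃ t : Fin k → V, R u t ∧ ∀ l, t l ∈ S}

variable (R : V → (Fin k → V) → Prop)

theorem Tm_mono {S S' : Set V} (h : S ⊆ S') : Tm R S ⊆ Tm R S' := by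
  rintro u ⟨t, h1, h2⟩
  exact ⟨t, h1, fun l => h (h2 l)⟩

theorem iter_mono {S S' : Set V} (h : S ⊆ S') (p : ℕ) : (Tm R)^[p] S ⊆ (Tm R)^[p] S' := by
  induction p with
  | zero => exact h
  | succ p ih =>
    rw [Function.iterate_succ_apply', Function.iterate_succ_apply']
    exact Tm_mono R ih

theorem iter_trans {a b c : V} {p q : ℕ} (h1 : b ∈ (Tm R)^[p] {a}) (h2 : c ∈ (Tm R)^[q] {b}) :
    c ∈ (Tm R)^[p + q] {a} := by
  rw [Nat.add_comm, Function.iterate_add_apply]
  exact iter_mono R (Set.singleton_subset_iff.2 h1) q h2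

theorem iter_one {a b : V} (h : b ∈ Tm R {a}) : b ∈ (Tm R)^[1] {a} := h

section finite

variable [Fintype V]

/-- Standing hypothesis: every singleton fills up after `K + 1` steps. -/
def Fill (K : ℕ) : Prop := ∀ j : V, (Tm R)^[K + 1] {j} = Set.univ

theorem univ_fix [Nonempty V] {K : ℕ} (h : Fill R K) : Tm R Set.univ = Set.univ := by
  obtain ⟨j⟩ := ‹Nonempty V›
  rw [Set.eq_univ_iff_forall]
  intro u
  have := h j
  rw [Function.iterate_succ_apply'] at this
  have h2 : u ∈ Tm R ((Tm R)^[K] {j}) := by rw [this]; trivial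
  exact Tm_mono R (Set.subset_univ _) h2

theorem univ_iter [Nonempty V] {K : ℕ} (h : Fill R K) (p : ℕ) :
    (Tm R)^[p] Set.univ = Set.univ := by
  induction p with
  | zero => rfl
  | succ p ih => rw [Function.iterate_succ_apply', ih, univ_fix R h]

theorem fill_ge [Nonempty V] {K : ℕ} (h : Fill R K) (j : V) (r : ℕ) (hr : K + 1 ≤ r) :
    (Tm R)^[r] {j} = Set.univ := by
  obtain ⟨p, rfl⟩ := Nat.exists_eq_add_of_le hr
  rw [Nat.add_comm, Function.iterate_add_apply, h j, univ_iter R h]

theorem chain [Nonempty V] {K : ℕ} (h : Fill R K) {c : V} {l : ℕ} (hl : 1 ≤ l)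
    (hc : c ∈ (Tm R)^[l] {c}) :
    (Tm R)^[l * (Fintype.card V - 1)] {c} = Set.univ := by
  classical
  have hstep : ∀ t, (Tm R)^[l * t] {c} ⊆ (Tm R)^[l * (t + 1)] {c} := by
    intro t
    have : l * (t + 1) = l * t + l := by ring
    rw [this, Function.iterate_add_apply]
    exact iter_mono R (Set.singleton_subset_iff.2 hc) _
  have hconst : ∀ t, (Tm R)^[l * t] {c} = (Tm R)^[l * (t + 1)] {c} →
      (Tm R)^[l * t] {c} = Set.univ := by
    intro t ht
    have hs : ∀ s, (Tm R)^[l * (t + s)] {c} = (Tm R)^[l * t] {c} := by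
      intro s
      induction s with
      | zero => rfl
      | succ s ih =>
        have e1 : l * (t + (s + 1)) = l + l * (t + s) := by ring
        have e2 : l * (t + 1) = l + l * t := by ring
        rw [e1, Function.iterate_add_apply, ih, ← Function.iterate_add_apply, ← e2]
        exact ht.symm
    rw [← hs (K + 1)]
    apply fill_ge R h
    calc K + 1 ≤ t + (K + 1) := by omega
      _ = 1 * (t + (K + 1)) := by ring
      _ ≤ l * (t + (K + 1)) := Nat.mul_le_mul_right _ hl
  have hmain : ∀ t, t + 1 ≤ ((Tm R)^[l * t] {c}).ncard ∨ (Tm R)^[l * t] {c} = Set.univ := by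
    intro t
    induction t with
    | zero => left; simp
    | succ t ih =>
      by_cases hu : (Tm R)^[l * t] {c} = Set.univ
      · right
        have := hstep t
        rw [hu] at this
        exact Set.univ_subset_iff.1 this
      · rcases ih with ih | ih
        · left
          have hne : (Tm R)^[l * t] {c} ≠ (Tm R)^[l * (t + 1)] {c} := fun h' => hu (hconst t h')
          have hss : (Tm R)^[l * t] {c} ⊂ (Tm R)^[l * (t + 1)] {c} :=
            (hstep t).ssubset_of_ne hne
          have := Set.ncard_lt_ncard hss (Set.toFinite _)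
          omega
        · exact absurd ih hu
  rcases hmain (Fintype.card V - 1) with h1 | h1
  · apply Set.eq_univ_of_forall
    intro u
    by_contra hu
    have hpos : 0 < Fintype.card V := Fintype.card_pos
    have hss : (Tm R)^[l * (Fintype.card V - 1)] {c} ⊂ Set.univ := by
      refine (Set.subset_univ _).ssubset_of_ne ?_
      intro h'
      rw [h'] at hu
      exact hu trivial
    have := Set.ncard_lt_ncard hss (Set.toFinite _)
    rw [Set.ncard_univ, Nat.card_eq_fintype_card] at this
    omega
  · exact h1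

/-- The basic inequality for cycles reachable from a slow vertex. -/
theorem slow [Nonempty V] {K : ℕ} (h : Fill R K) {j : V} (hj : (Tm R)^[K] {j} ≠ Set.univ)
    {c : V} {a l : ℕ} (hl : 1 ≤ l) (ha : c ∈ (Tm R)^[a] {j}) (hc : c ∈ (Tm R)^[l] {c}) :
    K < a + l * (Fintype.card V - 1) := by
  by_contra hcon
  push Not at hcon
  apply hj
  have h1 := chain R h hl hc
  obtain ⟨p, hp⟩ := Nat.exists_eq_add_of_le hcon
  have h2 : (Tm R)^[a + l * (Fintype.card V - 1)] {j} = Set.univ := by
    rw [Nat.add_comm, Function.iterate_add_apply]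
    apply Set.univ_subset_iff.1
    rw [← h1]
    exact iter_mono R (Set.singleton_subset_iff.2 ha) _
  rw [hp, Nat.add_comm _ p, Function.iterate_add_apply, h2, univ_iter R h]

end finite

end Pool.Agent.Q216.PT
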