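import Pool.Agent.Q216.PT.Structure

set_option autoImplicit false

/-!
Primitive tensors of maximal primitive degree: the orbit of the slow vertex consists of cyclic
intervals; necessary and sufficient conditions on the other entries.
-/

namespace Pool.Agent.Q216.PT

variable {V : Type} {k : ℕ} (R : V → (Fin k → V) → Prop)

/-- Membership of the index `i` (`0 ≤ i ≤ d`) in the cyclic interval with `s + 1` elements ending
at `r + 1`. -/
def Mem (d s r i : ℕ) : Prop := (i ≤ r + 1 ∧ r < i + s) ∨ r + 1 + d < i + s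

theorem mem_first {v : ℕ → V} {d : ℕ} (W : Wiel R v d) {i i' : ℕ} (hi : i ≤ d) (hi' : i' ≤ d)
    (h : (i' < d ∧ i = i' + 1) ∨ (i' = d ∧ i ≤ 1)) : v i ∈ Tm R {v i'} := by
  rcases h with ⟨h1, h2⟩ | ⟨h1, h2⟩
  · rw [W.step i' h1, h2]; rfl
  · rw [h1, W.last]
    interval_cases i
    · exact Or.inl rfl
    · exact Or.inr rfl

theorem lower_step {v : ℕ → V} {d : ℕ} (W : Wiel R v d) {S : Set V} {i : ℕ} (hi : i ≤ d)
    (h : ∃ i', i' ≤ d ∧ v i' ∈ S ∧ ((i' < d ∧ i = i' + 1) ∨ (i' = d ∧ i ≤ 1))) :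
    v i ∈ Tm R S := by
  obtain ⟨i', hi', hS, hh⟩ := h
  exact Tm_mono R (Set.singleton_subset_iff.2 hS) (mem_first R W hi hi' hh)

/-- The orbit of `v 0` contains the cyclic intervals. -/
theorem lower {v : ℕ → V} {d : ℕ} (hd : 1 ≤ d) (W : Wiel R v d) :
    ∀ s, (s < d → ∀ r, r < d → ∀ i, i ≤ d → Mem d s r i → v i ∈ (Tm R)^[1 + d * s + r] {v 0}) ∧
      (s ≤ d → ∀ i, i ≤ d → Mem d s 0 i → v i ∈ (Tm R)^[1 + d * s] {v 0}) := by
  -- inner induction on `r`
  have inner : ∀ s, s < d → (∀ i, i ≤ d → Mem d s 0 i → v i ∈ (Tm R)^[1 + d * s] {v 0}) →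
      ∀ r, r < d → ∀ i, i ≤ d → Mem d s r i → v i ∈ (Tm R)^[1 + d * s + r] {v 0} := by
    intro s hs h0 r
    induction r with
    | zero => intro _ i hi hm; exact h0 i hi hm
    | succ r ih =>
      intro hr i hi hm
      have e : 1 + d * s + (r + 1) = (1 + d * s + r) + 1 := by ring
      rw [e, Function.iterate_succ_apply']
      apply lower_step R W hi
      unfold Mem at hm
      rcases Nat.eq_zero_or_pos i with h1 | h1
      · refine ⟨d, le_refl _, ih (by omega) d (le_refl _) ?_, Or.inr ⟨rfl, by omega⟩⟩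
        unfold Mem; omega
      · refine ⟨i - 1, by omega, ih (by omega) (i - 1) (by omega) ?_, Or.inl ⟨by omega, by omega⟩⟩
        unfold Mem; omega
  intro s
  induction s with
  | zero =>
    have h0 : ∀ i, i ≤ d → Mem d 0 0 i → v i ∈ (Tm R)^[1 + d * 0] {v 0} := by
      intro i hi hm
      have : i = 1 := by unfold Mem at hm; omega
      rw [this]
      simp only [Nat.mul_zero, Nat.add_zero, Function.iterate_one]
      rw [W.step 0 hd]; rfl
    exact ⟨fun hs => inner 0 hs h0, fun _ => h0⟩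
  | succ s ih =>
    have h0 : s + 1 ≤ d → ∀ i, i ≤ d → Mem d (s + 1) 0 i →
        v i ∈ (Tm R)^[1 + d * (s + 1)] {v 0} := by
      intro hs i hi hm
      have e : 1 + d * (s + 1) = (1 + d * s + (d - 1)) + 1 := by
        rw [Nat.mul_add]; omega
      rw [e, Function.iterate_succ_apply']
      apply lower_step R W hi
      have hprev := ih.1 (by omega) (d - 1) (by omega)
      unfold Mem at hm
      rcases Nat.lt_or_ge i 2 with h1 | h1
      · refine ⟨d, le_refl _, hprev d (le_refl _) ?_, Or.inr ⟨rfl, by omega⟩⟩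
        unfold Mem; omega
      · refine ⟨i - 1, by omega, hprev (i - 1) (by omega) ?_, Or.inl ⟨by omega, by omega⟩⟩
        unfold Mem; omega
    refine ⟨fun hs => inner (s + 1) hs (h0 (by omega)), h0⟩

/-- The conditions on the remaining entries. -/
structure Cond (v : ℕ → V) (d : ℕ) : Prop where
  c3 : ∀ i, 3 ≤ i → i ≤ d → ∀ t, R (v i) t → ∃ l, t l = v (i - 1)
  c0 : 2 ≤ d → ∀ t, R (v 0) t → ∃ l, t l = v d
  c2 : 2 ≤ d → ∀ t, R (v 2) t → ∃ l, t l = v 1 ∨ t l = v 0
  c1 : ∀ t, R (v 1) t → ∃ l, t l = v d ∨ t l = v 0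

/-- `S` is contained in the set of the `v i` with `P i`. -/
def Sub (v : ℕ → V) (d : ℕ) (S : Set V) (P : ℕ → Prop) : Prop :=
  ∀ u ∈ S, ∃ i, i ≤ d ∧ P i ∧ u = v i

theorem upper_step {v : ℕ → V} {d : ℕ} (hd : 1 ≤ d) (W : Wiel R v d) (C : Cond R v d)
    {S : Set V} {P : ℕ → Prop} (hS : Sub v d S P) {i : ℕ} (hi : i ≤ d)
    (h : v i ∈ Tm R S) :
    (3 ≤ i ∧ P (i - 1)) ∨ (i = 0 ∧ (2 ≤ d → P d)) ∨ (i = 2 ∧ (P 1 ∨ P 0)) ∨
      (i = 1 ∧ (P d ∨ P 0)) := by
  obtain ⟨t, hR, ht⟩ := h
  have key : ∀ a, a ≤ d → (∃ l, t l = v a) → P a := by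
    rintro a ha ⟨l, hl⟩
    obtain ⟨i, hi, hP, hu⟩ := hS _ (ht l)
    rw [hl] at hu
    rw [W.inj a i ha hi hu]
    exact hP
  rcases Nat.lt_or_ge i 3 with h1 | h1
  · interval_cases i
    · right; left
      exact ⟨rfl, fun h2 => key d (le_refl _) (C.c0 h2 t hR)⟩
    · right; right; right
      refine ⟨rfl, ?_⟩
      obtain ⟨l, hl | hl⟩ := C.c1 t hR
      · exact Or.inl (key d (le_refl _) ⟨l, hl⟩)
      · exact Or.inr (key 0 (by omega) ⟨l, hl⟩)
    · right; right; left
      refine ⟨rfl, ?_⟩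
      obtain ⟨l, hl | hl⟩ := C.c2 (by omega) t hR
      · exact Or.inl (key 1 hd ⟨l, hl⟩)
      · exact Or.inr (key 0 (by omega) ⟨l, hl⟩)
  · left
    exact ⟨h1, key (i - 1) (by omega) (C.c3 i h1 hi t hR)⟩

/-- Under the conditions the orbit of `v 0` is contained in the cyclic intervals. -/
theorem upper {v : ℕ → V} {d : ℕ} (hd : 1 ≤ d) (W : Wiel R v d) (C : Cond R v d) :
    ∀ s, s < d → ∀ r, r < d → Sub v d ((Tm R)^[1 + d * s + r] {v 0}) (Mem d s r) := by
  have inner : ∀ s, s < d → Sub v d ((Tm R)^[1 + d * s] {v 0}) (Mem d s 0) →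
      ∀ r, r < d → Sub v d ((Tm R)^[1 + d * s + r] {v 0}) (Mem d s r) := by
    intro s hs h0 r
    induction r with
    | zero => intro _; exact h0
    | succ r ih =>
      intro hr u hu
      have e : 1 + d * s + (r + 1) = (1 + d * s + r) + 1 := by ring
      rw [e, Function.iterate_succ_apply'] at hu
      obtain ⟨i, hi, rfl⟩ := W.surj u
      have h1 := upper_step R hd W C (ih (by omega)) hi hu
      refine ⟨i, hi, ?_, rfl⟩
      unfold Mem at h1 ⊢
      omega
  intro s
  induction s with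
  | zero =>
    intro hs
    apply inner 0 hs
    intro u hu
    simp only [Nat.mul_zero, Nat.add_zero, Function.iterate_one] at hu
    rw [W.step 0 hd] at hu
    exact ⟨1, hd, by unfold Mem; omega, hu⟩
  | succ s ih =>
    intro hs
    apply inner (s + 1) hs
    intro u hu
    have e : 1 + d * (s + 1) = (1 + d * s + (d - 1)) + 1 := by
      rw [Nat.mul_add]; omega
    rw [e, Function.iterate_succ_apply'] at hu
    obtain ⟨i, hi, rfl⟩ := W.surj u
    have h1 := upper_step R hd W C (ih (by omega) (d - 1) (by omega)) hi hu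
    refine ⟨i, hi, ?_, rfl⟩
    unfold Mem at h1 ⊢
    omega

theorem Kform {d : ℕ} (hd : 1 ≤ d) : 1 + d * (d - 1) + (d - 1) = d * d := by
  obtain ⟨e, rfl⟩ := Nat.exists_eq_add_of_le hd
  simp only [Nat.add_sub_cancel_left]; ring

/-- Sufficiency: slow vertex. -/
theorem slow_of_cond {v : ℕ → V} {d : ℕ} (hd : 1 ≤ d) (W : Wiel R v d) (C : Cond R v d) :
    v 0 ∉ (Tm R)^[d * d] {v 0} := by
  intro h
  rw [← Kform hd] at h
  obtain ⟨i, hi, hm, hE⟩ := upper R hd W C (d - 1) (by omega) (d - 1) (by omega) _ h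
  have := W.inj 0 i (by omega) hi hE
  rw [← this] at hm
  unfold Mem at hm
  omega

/-- Sufficiency: everything is filled after `d * d + 1` steps. -/
theorem fill_of_wiel {v : ℕ → V} {d : ℕ} (hd : 1 ≤ d) (W : Wiel R v d) : Fill R (d * d) := by
  have h0 : (Tm R)^[d * d + 1] {v 0} = Set.univ := by
    rw [Set.eq_univ_iff_forall]
    intro u
    obtain ⟨i, hi, rfl⟩ := W.surj u
    have := (lower R hd W d).2 (le_refl _) i hi (by unfold Mem; omega)
    rwa [Nat.add_comm] at this
  have huniv : Tm R Set.univ = Set.univ := by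
    rw [Set.eq_univ_iff_forall]
    intro u
    obtain ⟨i, hi, rfl⟩ := W.surj u
    apply lower_step R W hi
    rcases Nat.eq_zero_or_pos i with h1 | h1
    · exact ⟨d, le_refl _, trivial, Or.inr ⟨rfl, by omega⟩⟩
    · exact ⟨i - 1, by omega, trivial, Or.inl ⟨by omega, by omega⟩⟩
  have huiter : ∀ p, (Tm R)^[p] Set.univ = Set.univ := by
    intro p
    induction p with
    | zero => rfl
    | succ p ih => rw [Function.iterate_succ_apply', ih, huniv]
  have hpt : ∀ a, a ≤ d → (Tm R)^[a] {v 0} = {v a} := by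
    intro a
    induction a with
    | zero => intro _; rfl
    | succ a ih =>
      intro ha
      rw [Function.iterate_succ_apply', ih (by omega), W.step a (by omega)]
  intro j
  obtain ⟨a, ha, rfl⟩ := W.surj j
  rw [← hpt a ha, ← Function.iterate_add_apply, Nat.add_comm, Function.iterate_add_apply, h0,
    huiter]

/-- Necessity of the conditions. -/
theorem cond_of_slow [Nonempty (Fin k)] {v : ℕ → V} {d : ℕ} (hd : 1 ≤ d) (W : Wiel R v d)
    (hslow : (Tm R)^[d * d] {v 0} ≠ Set.univ) : Cond R v d := by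
  have huniv : Tm R Set.univ = Set.univ := by
    rw [Set.eq_univ_iff_forall]
    intro u
    obtain ⟨i, hi, rfl⟩ := W.surj u
    apply lower_step R W hi
    rcases Nat.eq_zero_or_pos i with h1 | h1
    · exact ⟨d, le_refl _, trivial, Or.inr ⟨rfl, by omega⟩⟩
    · exact ⟨i - 1, by omega, trivial, Or.inl ⟨by omega, by omega⟩⟩
  have huiter : ∀ p, (Tm R)^[p] Set.univ = Set.univ := by
    intro p
    induction p with
    | zero => rfl
    | succ p ih => rw [Function.iterate_succ_apply', ih, huniv]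
  have hne : ∀ p, p ≤ d * d → (Tm R)^[p] {v 0} ≠ Set.univ := by
    intro p hp h
    apply hslow
    obtain ⟨q, hq⟩ := Nat.exists_eq_add_of_le hp
    rw [hq, Nat.add_comm, Function.iterate_add_apply, h, huiter]
  -- abbreviation for the orbit in the last round
  have hmiss : ∀ r, r < d → ∀ m, m ≤ d → (∀ i, i ≤ d → i ≠ m → Mem d (d - 1) r i) →
      v m ∉ (Tm R)^[1 + d * (d - 1) + r] {v 0} := by
    intro r hr m hm hall hmem
    apply hne (1 + d * (d - 1) + r) (by rw [← Kform hd]; omega)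
    rw [Set.eq_univ_iff_forall]
    intro u
    obtain ⟨i, hi, rfl⟩ := W.surj u
    by_cases him : i = m
    · rw [him]; exact hmem
    · exact (lower R hd W (d - 1)).1 (by omega) r hr i hi (hall i hi him)
  have hmiss2 : ∀ r, r + 2 ≤ d → v (r + 2) ∉ (Tm R)^[1 + d * (d - 1) + r] {v 0} := by
    intro r hr
    apply hmiss r (by omega) (r + 2) hr
    intro i hi hne
    unfold Mem; omega
  have hmiss0 : v 0 ∉ (Tm R)^[1 + d * (d - 1) + (d - 1)] {v 0} := by
    apply hmiss (d - 1) (by omega) 0 (by omega)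
    intro i hi hne
    unfold Mem; omega
  refine ⟨?_, ?_, ?_, ?_⟩
  · intro i h3 hid t hR
    by_contra hcon
    push Not at hcon
    apply hmiss2 (i - 2) (by omega)
    have e0 : i - 2 + 2 = i := by omega
    have e : 1 + d * (d - 1) + (i - 2) = (1 + d * (d - 1) + (i - 3)) + 1 := by omega
    rw [e0, e, Function.iterate_succ_apply']
    refine ⟨t, hR, ?_⟩
    intro l
    obtain ⟨a, ha, hal⟩ := W.surj (t l)
    rw [← hal]
    apply (lower R hd W (d - 1)).1 (by omega) (i - 3) (by omega) a ha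
    have : a ≠ i - 1 := by
      intro h; rw [h] at hal; exact hcon l hal.symm
    unfold Mem; omega
  · intro h2 t hR
    by_contra hcon
    push Not at hcon
    apply hmiss0
    have e : 1 + d * (d - 1) + (d - 1) = (1 + d * (d - 1) + (d - 2)) + 1 := by omega
    rw [e, Function.iterate_succ_apply']
    refine ⟨t, hR, ?_⟩
    intro l
    obtain ⟨a, ha, hal⟩ := W.surj (t l)
    rw [← hal]
    apply (lower R hd W (d - 1)).1 (by omega) (d - 2) (by omega) a ha
    have : a ≠ d := by
      intro h; rw [h] at hal; exact hcon l hal.symm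
    unfold Mem; omega
  · intro h2 t hR
    by_contra hcon
    push Not at hcon
    apply hmiss2 0 (by omega)
    have e : 1 + d * (d - 1) + 0 = (1 + d * (d - 2) + (d - 1)) + 1 := by
      obtain ⟨e, rfl⟩ := Nat.exists_eq_add_of_le h2
      have e1 : 2 + e - 1 = e + 1 := by omega
      have e2 : 2 + e - 2 = e := by omega
      rw [e1, e2]; ring
    rw [e, Function.iterate_succ_apply']
    refine ⟨t, hR, ?_⟩
    intro l
    obtain ⟨a, ha, hal⟩ := W.surj (t l)
    rw [← hal]
    apply (lower R hd W (d - 2)).1 (by omega) (d - 1) (by omega) a ha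
    have h1 : a ≠ 1 := by
      intro h; rw [h] at hal; exact (hcon l).1 hal.symm
    have h0 : a ≠ 0 := by
      intro h; rw [h] at hal; exact (hcon l).2 hal.symm
    unfold Mem; omega
  · intro t hR
    by_contra hcon
    push Not at hcon
    rcases Nat.lt_or_ge d 2 with h2 | h2
    · -- d = 1
      obtain ⟨l⟩ := ‹Nonempty (Fin k)›
      obtain ⟨a, ha, hal⟩ := W.surj (t l)
      have hd1 : d = 1 := by omega
      subst hd1
      interval_cases a
      · exact (hcon l).2 hal.symm
      · exact (hcon l).1 hal.symm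
    · apply hmiss2 0 (by omega)
      have e : 1 + d * (d - 1) + 0 = (1 + d * (d - 2) + (d - 2)) + 1 + 1 := by
        obtain ⟨e, rfl⟩ := Nat.exists_eq_add_of_le h2
        have e1 : 2 + e - 1 = e + 1 := by omega
        have e2 : 2 + e - 2 = e := by omega
        rw [e1, e2]; ring
      rw [e, Function.iterate_succ_apply', Function.iterate_succ_apply']
      apply lower_step R W h2
      refine ⟨1, hd, ?_, Or.inl ⟨by omega, rfl⟩⟩
      refine ⟨t, hR, ?_⟩
      intro l
      obtain ⟨a, ha, hal⟩ := W.surj (t l)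
      rw [← hal]
      apply (lower R hd W (d - 2)).1 (by omega) (d - 2) (by omega) a ha
      have h1 : a ≠ d := by
        intro h; rw [h] at hal; exact (hcon l).1 hal.symm
      have h0 : a ≠ 0 := by
        intro h; rw [h] at hal; exact (hcon l).2 hal.symm
      unfold Mem; omega

end Pool.Agent.Q216.PT
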