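import Pool.Agent.Q216.PT.Core

set_option autoImplicit false

/-!
Primitive tensors of maximal primitive degree: the digraph of the majorization matrix is the
Wielandt digraph.
-/

namespace Pool.Agent.Q216.PT

variable {V : Type} {k : ℕ} (R : V → (Fin k → V) → Prop)

theorem arith {a l d : ℕ} (h : a + l ≤ d) (hd : 1 ≤ d) : a + l * d ≤ d * d := by
  have h1 : l * d + a * d ≤ d * d := by
    rw [← Nat.add_mul]
    exact Nat.mul_le_mul_right _ (by omega)
  have h2 : a * 1 ≤ a * d := Nat.mul_le_mul_left _ hd
  omega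

theorem arith2 {a l d : ℕ} (h : a + l = d + 1) (ha : 2 ≤ a) (had : a ≤ d) :
    a + l * d ≤ d * d := by
  obtain ⟨b, rfl⟩ := Nat.exists_eq_add_of_le ha
  obtain ⟨e, rfl⟩ := Nat.exists_eq_add_of_le had
  have hl : l = e + 1 := by omega
  subst hl
  nlinarith [Nat.zero_le b, Nat.zero_le e, Nat.zero_le (b * e), Nat.zero_le (b * b)]

theorem Tm_empty [Nonempty (Fin k)] : Tm R (∅ : Set V) = ∅ := by
  rw [Set.eq_empty_iff_forall_notMem]
  rintro u ⟨t, _, h⟩
  exact h (Classical.arbitrary _)

theorem iter_empty [Nonempty (Fin k)] (p : ℕ) : (Tm R)^[p] (∅ : Set V) = ∅ := by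
  induction p with
  | zero => rfl
  | succ p ih => rw [Function.iterate_succ_apply', ih, Tm_empty]

/-- The Wielandt structure of the pattern on singletons, with respect to the labels `v`. -/
structure Wiel (v : ℕ → V) (d : ℕ) : Prop where
  inj : ∀ a b, a ≤ d → b ≤ d → v a = v b → a = b
  surj : ∀ u, ∃ a, a ≤ d ∧ v a = u
  step : ∀ i, i < d → Tm R {v i} = {v (i + 1)}
  last : Tm R {v d} = {v 0, v 1}

theorem structure_thm [Fintype V] [Nonempty (Fin k)] {d : ℕ} (hd : 1 ≤ d)
    (hcard : Fintype.card V = d + 1) (h : Fill R (d * d)) {j : V}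
    (hj : (Tm R)^[d * d] {j} ≠ Set.univ) :
    ∃ v : ℕ → V, v 0 = j ∧ Wiel R v d := by
  classical
  haveI : Nonempty V := ⟨j⟩
  have hne : ∀ u : V, ∃ w, w ∈ Tm R {u} := by
    intro u
    by_contra hcon
    push Not at hcon
    have h0 : Tm R {u} = ∅ := Set.eq_empty_iff_forall_notMem.2 hcon
    have h1 := h u
    rw [Function.iterate_succ_apply, h0, iter_empty] at h1
    have : u ∈ (∅ : Set V) := by rw [h1]; trivial
    exact this
  choose nxt hnxt using hne
  have hslow : ∀ {c : V} {a l : ℕ}, 1 ≤ l → c ∈ (Tm R)^[a] {j} → c ∈ (Tm R)^[l] {c} →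
      d * d < a + l * d := by
    intro c a l hl ha hc
    have := slow R h hj hl ha hc
    rwa [hcard, Nat.add_sub_cancel] at this
  set v : ℕ → V := fun i => nxt^[i] j with hv
  have hv0 : v 0 = j := rfl
  have hvs : ∀ i, v (i + 1) ∈ Tm R {v i} := by
    intro i
    have : v (i + 1) = nxt (v i) := Function.iterate_succ_apply' nxt i j
    rw [this]; exact hnxt _
  have hreach : ∀ p a, v (a + p) ∈ (Tm R)^[p] {v a} := by
    intro p
    induction p with
    | zero => intro a; exact rfl
    | succ p ih =>
      intro a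
      have h1 := ih a
      have h2 : v (a + p + 1) ∈ (Tm R)^[1] {v (a + p)} := hvs _
      exact iter_trans R h1 h2
  have hreach' : ∀ a b, a ≤ b → v b ∈ (Tm R)^[b - a] {v a} := by
    intro a b hab
    have := hreach (b - a) a
    rwa [Nat.add_sub_cancel' hab] at this
  have hfrom0 : ∀ a, v a ∈ (Tm R)^[a] {j} := by
    intro a
    have := hreach a 0
    rwa [Nat.zero_add] at this
  have hinj' : ∀ a b, a < b → b ≤ d → v a ≠ v b := by
    intro a b hab hbd hE
    have h1 := hreach' a b hab.le
    rw [← hE] at h1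
    have h2 := hslow (c := v a) (a := a) (l := b - a) (by omega) (hfrom0 a) h1
    have h3 := arith (a := a) (l := b - a) (d := d) (by omega) hd
    omega
  have hinj : ∀ a b, a ≤ d → b ≤ d → v a = v b → a = b := by
    intro a b ha hb hE
    rcases lt_trichotomy a b with h1 | h1 | h1
    · exact absurd hE (hinj' a b h1 hb)
    · exact h1
    · exact absurd hE.symm (hinj' b a h1 ha)
  have hsurj : ∀ u, ∃ a, a ≤ d ∧ v a = u := by
    have hb : Function.Bijective (fun i : Fin (d + 1) => v i) := by
      rw [Fintype.bijective_iff_injective_and_card]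
      refine ⟨?_, by rw [Fintype.card_fin, hcard]⟩
      intro a b hab
      exact Fin.ext (hinj a b (Nat.lt_succ_iff.1 a.2) (Nat.lt_succ_iff.1 b.2) hab)
    intro u
    obtain ⟨a, ha⟩ := hb.2 u
    exact ⟨a, Nat.lt_succ_iff.1 a.2, ha⟩
  -- successors of the last vertex
  have hlast : ∀ u ∈ Tm R {v d}, u = v 0 ∨ u = v 1 := by
    intro u hu
    obtain ⟨a, ha, rfl⟩ := hsurj u
    by_contra hcon
    push Not at hcon
    have ha2 : 2 ≤ a := by
      rcases Nat.lt_or_ge a 2 with h1 | h1
      · exfalso
        interval_cases a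
        · exact hcon.1 rfl
        · exact hcon.2 rfl
      · exact h1
    have h1 : v a ∈ (Tm R)^[(d - a) + 1] {v a} := iter_trans R (hreach' a d ha) (iter_one R hu)
    have h2 := hslow (by omega) (hfrom0 a) h1
    have h3 := arith2 (a := a) (l := d - a + 1) (d := d) (by omega) ha2 ha
    omega
  have hback : ∀ i m, m ≤ i → i < d → v m ∉ Tm R {v i} := by
    intro i m hmi hid hu
    have h1 : v m ∈ (Tm R)^[(i - m) + 1] {v m} := iter_trans R (hreach' m i hmi) (iter_one R hu)
    have h2 := hslow (by omega) (hfrom0 m) h1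
    have h3 := arith (a := m) (l := i - m + 1) (d := d) (by omega) hd
    omega
  have hfwd0 : ∀ i m, i + 2 ≤ m → m ≤ d → v 0 ∈ Tm R {v d} → v m ∉ Tm R {v i} := by
    intro i m him hmd h0 hu
    have h1 : v 0 ∈ (Tm R)^[((i + 1) + (d - m)) + 1] {v 0} :=
      iter_trans R (iter_trans R (iter_trans R (hfrom0 i) (iter_one R hu)) (hreach' m d hmd))
        (iter_one R h0)
    have h2 := hslow (by omega) (hfrom0 0) h1
    have h3 := arith (a := 0) (l := i + 1 + (d - m) + 1) (d := d) (by omega) hd
    omega
  have hfwd1 : ∀ i m, 1 ≤ i → i + 2 ≤ m → m ≤ d → v 1 ∈ Tm R {v d} → v m ∉ Tm R {v i} := by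
    intro i m hi him hmd h0 hu
    have h1 : v 1 ∈ (Tm R)^[(((i - 1) + 1) + (d - m)) + 1] {v 1} :=
      iter_trans R (iter_trans R (iter_trans R (hreach' 1 i hi) (iter_one R hu)) (hreach' m d hmd))
        (iter_one R h0)
    have h2 := hslow (by omega) (hfrom0 1) h1
    have h3 := arith (a := 1) (l := i - 1 + 1 + (d - m) + 1) (d := d) (by omega) hd
    omega
  have hd1 := hvs d
  have hstep1 : ∀ i, 1 ≤ i → i < d → Tm R {v i} = {v (i + 1)} := by
    intro i hi hid
    apply Set.eq_singleton_iff_unique_mem.2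
    refine ⟨hvs i, ?_⟩
    intro u hu
    obtain ⟨m, hm, rfl⟩ := hsurj u
    rcases Nat.lt_or_ge i m with h1 | h1
    · rcases Nat.lt_or_ge (i + 1) m with h2 | h2
      · exfalso
        rcases hlast _ hd1 with h3 | h3
        · rw [h3] at hd1
          exact hfwd0 i m h2 hm hd1 hu
        · rw [h3] at hd1
          exact hfwd1 i m hi h2 hm hd1 hu
      · have : m = i + 1 := by omega
        rw [this]
    · exact absurd hu (hback i m h1 hid)
  -- a set consisting of one element is not everything
  have hsing : ∀ u : V, ({u} : Set V) ≠ Set.univ := by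
    intro u hu
    have h1 : ∀ w : V, w = u := fun w => by
      have : w ∈ ({u} : Set V) := by rw [hu]; trivial
      exact this
    have h2 := (h1 (v 0)).trans (h1 (v 1)).symm
    exact absurd h2 (hinj' 0 1 (by omega) hd)
  have h0last : v 0 ∈ Tm R {v d} := by
    by_contra hcon
    have hL : Tm R {v d} = {v 1} := by
      apply Set.eq_singleton_iff_unique_mem.2
      have : ∀ u ∈ Tm R {v d}, u = v 1 := by
        intro u hu
        rcases hlast u hu with h1 | h1
        · rw [h1] at hu; exact absurd hu hcon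
        · exact h1
      refine ⟨?_, this⟩
      have h2 := this _ hd1
      rw [h2] at hd1; exact hd1
    have horb : ∀ p, ∃ a, 1 ≤ a ∧ a ≤ d ∧ (Tm R)^[p] {v 1} = {v a} := by
      intro p
      induction p with
      | zero => exact ⟨1, le_refl _, hd, rfl⟩
      | succ p ih =>
        obtain ⟨a, ha1, had, hE⟩ := ih
        rw [Function.iterate_succ_apply', hE]
        rcases Nat.lt_or_ge a d with h1 | h1
        · exact ⟨a + 1, by omega, by omega, hstep1 a ha1 h1⟩
        · have : a = d := by omega
          rw [this]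
          exact ⟨1, le_refl _, hd, hL⟩
    obtain ⟨a, _, _, hE⟩ := horb (d * d + 1)
    rw [h (v 1)] at hE
    exact hsing _ hE.symm
  have hstep0 : Tm R {v 0} = {v 1} := by
    apply Set.eq_singleton_iff_unique_mem.2
    refine ⟨hvs 0, ?_⟩
    intro u hu
    obtain ⟨m, hm, rfl⟩ := hsurj u
    rcases Nat.lt_or_ge 0 m with h1 | h1
    · rcases Nat.lt_or_ge 1 m with h2 | h2
      · exact absurd hu (hfwd0 0 m h2 hm h0last)
      · have : m = 1 := by omega
        rw [this]
    · exact absurd hu (hback 0 m h1 hd)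
  have h1last : v 1 ∈ Tm R {v d} := by
    by_contra hcon
    have hL : Tm R {v d} = {v 0} := by
      apply Set.eq_singleton_iff_unique_mem.2
      refine ⟨h0last, ?_⟩
      intro u hu
      rcases hlast u hu with h1 | h1
      · exact h1
      · rw [h1] at hu; exact absurd hu hcon
    have horb : ∀ p, ∃ a, a ≤ d ∧ (Tm R)^[p] {v 0} = {v a} := by
      intro p
      induction p with
      | zero => exact ⟨0, by omega, rfl⟩
      | succ p ih =>
        obtain ⟨a, had, hE⟩ := ih
        rw [Function.iterate_succ_apply', hE]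
        rcases Nat.lt_or_ge a d with h1 | h1
        · refine ⟨a + 1, by omega, ?_⟩
          rcases Nat.eq_zero_or_pos a with h2 | h2
          · rw [h2]; exact hstep0
          · exact hstep1 a h2 h1
        · have : a = d := by omega
          rw [this]
          exact ⟨0, by omega, hL⟩
    obtain ⟨a, _, hE⟩ := horb (d * d + 1)
    rw [h (v 0)] at hE
    exact hsing _ hE.symm
  refine ⟨v, rfl, hinj, hsurj, ?_, ?_⟩
  · intro i hi
    rcases Nat.eq_zero_or_pos i with h1 | h1
    · rw [h1]; exact hstep0
    · exact hstep1 i h1 hi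
  · ext u
    constructor
    · intro hu
      rcases hlast u hu with h1 | h1
      · exact Or.inl h1
      · exact Or.inr h1
    · rintro (h1 | h1)
      · rw [h1]; exact h0last
      · rw [h1]; exact h1last

end Pool.Agent.Q216.PT
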