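import Pool.Agent.Q216.PT.Orbit

set_option autoImplicit false

/-!
Primitive tensors of maximal primitive degree: definitions for tensors and the main theorem.
-/

namespace Pool.Agent.Q216.PT

open Finset

/-- The map `T_A(x) = (A x)^{[1/(m-1)]}` of a tensor `A` of order `m = k + 1` and dimension `n`,
where `(A x)_i = ∑ a_{i i_2 ... i_m} x_{i_2} ... x_{i_m}`. -/
noncomputable def TA {n k : ℕ} (A : (Fin (k + 1) → Fin n) → ℝ) (x : Fin n → ℝ) : Fin n → ℝ :=
  fun i => (∑ t : Fin k → Fin n, A (Fin.cons i t) * ∏ l, x (t l)) ^ ((1 : ℝ) / (k : ℝ))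

/-- `r ≥ 1` and `T_A^r(x)` is positive for every nonzero nonnegative `x`. -/
def FillTime {n k : ℕ} (A : (Fin (k + 1) → Fin n) → ℝ) (r : ℕ) : Prop :=
  1 ≤ r ∧ ∀ x : Fin n → ℝ, (∀ i, 0 ≤ x i) → x ≠ 0 → ∀ i, 0 < ((TA A)^[r] x) i

/-- `A` is primitive. -/
def Primitive {n k : ℕ} (A : (Fin (k + 1) → Fin n) → ℝ) : Prop := ∃ r, FillTime A r

/-- The primitive degree `γ(A)`. -/
noncomputable def primDegree {n k : ℕ} (A : (Fin (k + 1) → Fin n) → ℝ) : ℕ :=
  sInf {r | FillTime A r}

/-- The extremal zero patterns. With indices `1, ..., n` (so `i.val + 1` instead of `i`):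
`b_{ij...j} > 0` iff the entry `(i,j)` of the Wielandt matrix `W_n` is nonzero, and every positive
entry `b_{i i_2 ... i_m}` has
`i + 1 ∈ {i_2,...,i_m}` if `i ≤ n - 2`, `{n, 1} ∩ {i_2,...,i_m} ≠ ∅` if `i = n - 1`, and
`{1, 2} ∩ {i_2,...,i_m} ≠ ∅` if `i = n`. -/
def ExtremalPattern {n k : ℕ} (B : (Fin (k + 1) → Fin n) → ℝ) : Prop :=
  (∀ i j : Fin n, 0 < B (Fin.cons i fun _ => j) ↔
    (j.val = i.val + 1 ∨ (i.val + 1 = n ∧ (j.val = 0 ∨ j.val = 1)))) ∧
  ∀ (i : Fin n) (t : Fin k → Fin n), 0 < B (Fin.cons i t) →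
    (i.val + 2 < n → ∃ l, (t l).val = i.val + 1) ∧
    (i.val + 2 = n → ∃ l, (t l).val + 1 = n ∨ (t l).val = 0) ∧
    (i.val + 1 = n → ∃ l, (t l).val = 0 ∨ (t l).val = 1)

/-- The positivity pattern. -/
def Pat {n k : ℕ} (A : (Fin (k + 1) → Fin n) → ℝ) (u : Fin n) (t : Fin k → Fin n) : Prop :=
  0 < A (Fin.cons u t)

theorem TA_nonneg {n k : ℕ} {A : (Fin (k + 1) → Fin n) → ℝ} (hA : ∀ t, 0 ≤ A t)
    {x : Fin n → ℝ} (hx : ∀ i, 0 ≤ x i) (i : Fin n) : 0 ≤ TA A x i := by
  unfold TA
  apply Real.rpow_nonneg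
  exact sum_nonneg fun t _ => mul_nonneg (hA _) (prod_nonneg fun l _ => hx _)

theorem TA_pos {n k : ℕ} {A : (Fin (k + 1) → Fin n) → ℝ} (hk : 1 ≤ k) (hA : ∀ t, 0 ≤ A t)
    {x : Fin n → ℝ} (hx : ∀ i, 0 ≤ x i) :
    {i | 0 < TA A x i} = Tm (Pat A) {i | 0 < x i} := by
  ext i
  have hs0 : 0 ≤ ∑ t : Fin k → Fin n, A (Fin.cons i t) * ∏ l, x (t l) :=
    sum_nonneg fun t _ => mul_nonneg (hA _) (prod_nonneg fun l _ => hx _)
  constructor
  · intro h
    have h1 : 0 < TA A x i := h
    have h2 : 0 < ∑ t : Fin k → Fin n, A (Fin.cons i t) * ∏ l, x (t l) := by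
      rcases hs0.lt_or_eq with h3 | h3
      · exact h3
      · exfalso
        unfold TA at h1
        rw [← h3, Real.zero_rpow] at h1
        · exact lt_irrefl _ h1
        · have : (0 : ℝ) < k := by exact_mod_cast hk
          positivity
    obtain ⟨t, _, ht⟩ := exists_lt_of_sum_lt (s := univ) (f := fun _ => (0 : ℝ))
      (g := fun t : Fin k → Fin n => A (Fin.cons i t) * ∏ l, x (t l)) (by simpa using h2)
    refine ⟨t, ?_, ?_⟩
    · rcases (hA (Fin.cons i t)).lt_or_eq with h3 | h3
      · exact h3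
      · exfalso
        simp only [← h3, zero_mul] at ht
        exact lt_irrefl _ ht
    · intro l
      rcases (hx (t l)).lt_or_eq with h3 | h3
      · exact h3
      · exfalso
        have : ∏ l, x (t l) = 0 := prod_eq_zero (mem_univ l) h3.symm
        simp only [this, mul_zero] at ht
        exact lt_irrefl _ ht
  · rintro ⟨t, h1, h2⟩
    have h3 : 0 < ∑ t : Fin k → Fin n, A (Fin.cons i t) * ∏ l, x (t l) := by
      apply sum_pos' (fun t _ => mul_nonneg (hA _) (prod_nonneg fun l _ => hx _))
      exact ⟨t, mem_univ _, mul_pos h1 (prod_pos fun l _ => h2 l)⟩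
    exact Real.rpow_pos_of_pos h3 _

theorem TA_iter_nonneg {n k : ℕ} {A : (Fin (k + 1) → Fin n) → ℝ} (hA : ∀ t, 0 ≤ A t)
    {x : Fin n → ℝ} (hx : ∀ i, 0 ≤ x i) (r : ℕ) (i : Fin n) : 0 ≤ ((TA A)^[r] x) i := by
  induction r generalizing i with
  | zero => exact hx i
  | succ r ih =>
    rw [Function.iterate_succ_apply']
    exact TA_nonneg hA ih i

theorem TA_iter {n k : ℕ} {A : (Fin (k + 1) → Fin n) → ℝ} (hk : 1 ≤ k) (hA : ∀ t, 0 ≤ A t)
    {x : Fin n → ℝ} (hx : ∀ i, 0 ≤ x i) (r : ℕ) :
    {i | 0 < ((TA A)^[r] x) i} = (Tm (Pat A))^[r] {i | 0 < x i} := by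
  induction r with
  | zero => rfl
  | succ r ih =>
    rw [Function.iterate_succ_apply', Function.iterate_succ_apply', ← ih]
    exact TA_pos hk hA (TA_iter_nonneg hA hx r)

theorem fillTime_iff {n k : ℕ} {A : (Fin (k + 1) → Fin n) → ℝ} (hk : 1 ≤ k)
    (hA : ∀ t, 0 ≤ A t) (r : ℕ) :
    FillTime A r ↔ 1 ≤ r ∧ ∀ j, (Tm (Pat A))^[r] {j} = Set.univ := by
  classical
  constructor
  · rintro ⟨h1, h2⟩
    refine ⟨h1, fun j => ?_⟩
    have hx : ∀ i, 0 ≤ (Pi.single j (1 : ℝ) : Fin n → ℝ) i := by
      intro i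
      by_cases h : i = j
      · rw [h, Pi.single_eq_same]; norm_num
      · rw [Pi.single_eq_of_ne h]
    have hne : (Pi.single j (1 : ℝ) : Fin n → ℝ) ≠ 0 := by
      intro h
      have := congrFun h j
      rw [Pi.single_eq_same] at this
      simp at this
    have h3 := TA_iter hk hA hx r
    have hsupp : {i | 0 < (Pi.single j (1 : ℝ) : Fin n → ℝ) i} = {j} := by
      ext i
      by_cases h : i = j
      · rw [h]
        constructor
        · intro _; rfl
        · intro _
          show 0 < (Pi.single j (1 : ℝ) : Fin n → ℝ) j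
          rw [Pi.single_eq_same]; norm_num
      · constructor
        · intro h'
          have : 0 < (Pi.single j (1 : ℝ) : Fin n → ℝ) i := h'
          rw [Pi.single_eq_of_ne h] at this
          exact absurd this (lt_irrefl _)
        · intro h'; exact absurd h' h
    rw [hsupp] at h3
    rw [← h3, Set.eq_univ_iff_forall]
    intro i
    exact h2 _ hx hne i
  · rintro ⟨h1, h2⟩
    refine ⟨h1, fun x hx hne i => ?_⟩
    obtain ⟨j, hj⟩ : ∃ j, x j ≠ 0 := by
      by_contra hcon
      push Not at hcon
      exact hne (funext hcon)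
    have hj' : 0 < x j := (hx j).lt_of_ne hj.symm
    have h3 := TA_iter hk hA hx r
    have h4 : (Tm (Pat A))^[r] {j} ⊆ (Tm (Pat A))^[r] {i | 0 < x i} :=
      iter_mono _ (Set.singleton_subset_iff.2 (show j ∈ {i | 0 < x i} from hj')) r
    rw [h2 j, ← h3] at h4
    exact h4 (Set.mem_univ i)

theorem degree_iff {d k : ℕ} (hd : 1 ≤ d) {A : (Fin (k + 1) → Fin (d + 1)) → ℝ} (hk : 1 ≤ k)
    (hA : ∀ t, 0 ≤ A t) :
    (Primitive A ∧ primDegree A = d ^ 2 + 1) ↔
      (Fill (Pat A) (d * d) ∧ ∃ j, (Tm (Pat A))^[d * d] {j} ≠ Set.univ) := by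
  have hdd : d ^ 2 = d * d := by ring
  have hdd1 : 1 ≤ d * d := Nat.mul_pos hd hd
  constructor
  · rintro ⟨⟨r, hr⟩, hdeg⟩
    unfold primDegree at hdeg
    have hmem : FillTime A (sInf {r | FillTime A r}) := Nat.sInf_mem (s := {r | FillTime A r}) ⟨r, hr⟩
    rw [hdeg, hdd, fillTime_iff hk hA] at hmem
    refine ⟨hmem.2, ?_⟩
    by_contra hcon
    push Not at hcon
    have h1 : FillTime A (d * d) := (fillTime_iff hk hA _).2 ⟨hdd1, hcon⟩
    have h2 := Nat.sInf_le (s := {r | FillTime A r}) h1
    omega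
  · rintro ⟨h1, j, hj⟩
    have h2 : FillTime A (d * d + 1) := (fillTime_iff hk hA _).2 ⟨by omega, h1⟩
    refine ⟨⟨_, h2⟩, ?_⟩
    unfold primDegree
    rw [hdd]
    apply le_antisymm
    · exact Nat.sInf_le h2
    · by_contra hcon
      push Not at hcon
      have hmem : FillTime A (sInf {r | FillTime A r}) :=
        Nat.sInf_mem (s := {r | FillTime A r}) ⟨_, h2⟩
      rw [fillTime_iff hk hA] at hmem
      apply hj
      obtain ⟨q, hq⟩ := Nat.exists_eq_add_of_le (Nat.lt_succ_iff.1 hcon)
      rw [hq, Nat.add_comm _ q, Function.iterate_add_apply, hmem.2 j, univ_iter _ h1]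

/-- The index reversal. -/
def fl (d q : ℕ) : ℕ := if q = 0 then 0 else d + 1 - q

theorem fl_le {d q : ℕ} : fl d q ≤ d := by
  unfold fl; split <;> omega

theorem fl_fl {d q : ℕ} (h : q ≤ d) : fl d (fl d q) = q := by
  unfold fl; split_ifs <;> omega

theorem fl_spec (d q : ℕ) : (q = 0 ∧ fl d q = 0) ∨ (1 ≤ q ∧ fl d q = d + 1 - q) := by
  unfold fl
  rcases Nat.eq_zero_or_pos q with h | h
  · left; exact ⟨h, if_pos h⟩
  · right; exact ⟨h, if_neg (by omega)⟩

theorem comp_cons {n k : ℕ} (σ : Fin n → Fin n) (i : Fin n) (t : Fin k → Fin n) :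
    (σ ∘ (Fin.cons i t : Fin (k + 1) → Fin n)) = Fin.cons (σ i) (σ ∘ t) := by
  funext a
  refine Fin.cases ?_ (fun b => ?_) a
  · rfl
  · rfl

theorem mem_single {n k : ℕ} [Nonempty (Fin k)] (A : (Fin (k + 1) → Fin n) → ℝ) (u w : Fin n) :
    u ∈ Tm (Pat A) {w} ↔ 0 < A (Fin.cons u fun _ => w) := by
  constructor
  · rintro ⟨t, h1, h2⟩
    have : t = fun _ => w := funext h2
    rw [this] at h1; exact h1
  · intro h
    exact ⟨fun _ => w, h, fun _ => rfl⟩

theorem main {n k : ℕ} (hn : 2 ≤ n) (hk : 1 ≤ k) (A : (Fin (k + 1) → Fin n) → ℝ)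
    (hA : ∀ t, 0 ≤ A t) :
    (Primitive A ∧ primDegree A = (n - 1) ^ 2 + 1) ↔
      ∃ σ : Equiv.Perm (Fin n), ExtremalPattern fun t => A (σ ∘ t) := by
  classical
  obtain ⟨d, rfl⟩ : ∃ d, n = d + 1 := ⟨n - 1, by omega⟩
  have hd : 1 ≤ d := by omega
  have : Nonempty (Fin k) := ⟨⟨0, hk⟩⟩
  rw [Nat.add_sub_cancel, degree_iff hd hk hA]
  constructor
  · rintro ⟨hfill, j, hj⟩
    obtain ⟨v, hv0, W⟩ := structure_thm (Pat A) hd (Fintype.card_fin _) hfill hj
    rw [← hv0] at hj
    have C := cond_of_slow (Pat A) hd W hj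
    have hbij : Function.Bijective (fun q : Fin (d + 1) => v (fl d q.val)) := by
      rw [← Finite.injective_iff_bijective]
      intro a b hab
      have h1 := W.inj _ _ fl_le fl_le hab
      have h2 := congrArg (fl d) h1
      rw [fl_fl (Nat.lt_succ_iff.1 a.2), fl_fl (Nat.lt_succ_iff.1 b.2)] at h2
      exact Fin.ext h2
    refine ⟨Equiv.ofBijective _ hbij, ?_⟩
    have hσ : ∀ q : Fin (d + 1), (Equiv.ofBijective _ hbij) q = v (fl d q.val) := fun q => rfl
    refine ⟨?_, ?_⟩
    · intro i jj
      beta_reduce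
      rw [comp_cons]
      have e1 : (⇑(Equiv.ofBijective _ hbij) ∘ fun _ : Fin k => jj) =
          fun _ => v (fl d jj.val) := by funext l; exact hσ jj
      rw [e1, hσ, ← mem_single]
      have hi := i.2
      have hjj := jj.2
      rcases Nat.lt_or_ge (fl d jj.val) d with h1 | h1
      · rw [W.step _ h1, Set.mem_singleton_iff]
        constructor
        · intro h2
          have h3 := W.inj _ _ fl_le (by omega) h2
          unfold fl at h1 h3
          split_ifs at h1 h3 <;> omega
        · intro h2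
          have : fl d i.val = fl d jj.val + 1 := by
            unfold fl at h1 ⊢
            split_ifs at h1 ⊢ <;> omega
          rw [this]
      · have h1' : fl d jj.val = d := le_antisymm fl_le h1
        rw [h1', W.last, Set.mem_insert_iff, Set.mem_singleton_iff]
        constructor
        · rintro (h2 | h2)
          · have h3 := W.inj _ _ fl_le (by omega) h2
            unfold fl at h1' h3
            split_ifs at h1' h3 <;> omega
          · have h3 := W.inj _ _ fl_le (by omega) h2
            unfold fl at h1' h3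
            split_ifs at h1' h3 <;> omega
        · intro h2
          have : fl d i.val = 0 ∨ fl d i.val = 1 := by
            unfold fl at h1' ⊢
            split_ifs at h1' ⊢ <;> omega
          rcases this with h3 | h3
          · left; rw [h3]
          · right; rw [h3]
    · intro i t hpos
      beta_reduce at hpos
      rw [comp_cons, hσ] at hpos
      have hR : Pat A (v (fl d i.val)) (⇑(Equiv.ofBijective _ hbij) ∘ t) := hpos
      have hi := i.2
      have back : ∀ l a, a ≤ d → (⇑(Equiv.ofBijective _ hbij) ∘ t) l = v a →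
          fl d (t l).val = a := by
        intro l a ha h
        exact W.inj _ _ fl_le ha h
      refine ⟨?_, ?_, ?_⟩
      · intro h2
        rcases Nat.eq_zero_or_pos i.val with h3 | h3
        · have e : fl d i.val = 0 := by unfold fl; simp [h3]
          rw [e] at hR
          obtain ⟨l, hl⟩ := C.c0 (by omega) _ hR
          refine ⟨l, ?_⟩
          have h4 := back l d (le_refl _) hl
          have := (t l).2
          unfold fl at h4
          split_ifs at h4 <;> omega
        · have e : fl d i.val = d + 1 - i.val := by unfold fl; rw [if_neg (by omega)]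
          rw [e] at hR
          obtain ⟨l, hl⟩ := C.c3 _ (by omega) (by omega) _ hR
          refine ⟨l, ?_⟩
          have h4 := back l _ (by omega) hl
          have := (t l).2
          unfold fl at h4
          split_ifs at h4 <;> omega
      · intro h2
        rcases Nat.lt_or_ge d 2 with h3 | h3
        · refine ⟨⟨0, hk⟩, ?_⟩
          have := (t ⟨0, hk⟩).2
          omega
        · have e : fl d i.val = 2 := by unfold fl; rw [if_neg (by omega)]; omega
          rw [e] at hR
          obtain ⟨l, hl⟩ := C.c2 h3 _ hR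
          refine ⟨l, ?_⟩
          have := (t l).2
          rcases hl with hl | hl
          · have h4 := back l _ (by omega) hl
            unfold fl at h4
            split_ifs at h4 <;> omega
          · have h4 := back l _ (by omega) hl
            unfold fl at h4
            split_ifs at h4 <;> omega
      · intro h2
        have e : fl d i.val = 1 := by unfold fl; rw [if_neg (by omega)]; omega
        rw [e] at hR
        obtain ⟨l, hl⟩ := C.c1 _ hR
        refine ⟨l, ?_⟩
        have := (t l).2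
        rcases hl with hl | hl
        · have h4 := back l _ (le_refl _) hl
          unfold fl at h4
          split_ifs at h4 <;> omega
        · have h4 := back l _ (by omega) hl
          unfold fl at h4
          split_ifs at h4 <;> omega
  · rintro ⟨σ, hM, hC⟩
    set v : ℕ → Fin (d + 1) := fun a => σ ⟨fl d a, Nat.lt_succ_of_le fl_le⟩ with hv
    have hvq : ∀ q : Fin (d + 1), σ q = v (fl d q.val) := by
      intro q
      simp only [hv]
      congr 1
      exact Fin.ext (fl_fl (Nat.lt_succ_iff.1 q.2)).symm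
    have hinj : ∀ a b, a ≤ d → b ≤ d → v a = v b → a = b := by
      intro a b ha hb h
      have h1 := σ.injective h
      have h2 : fl d a = fl d b := congrArg Fin.val h1
      have h3 := congrArg (fl d) h2
      rwa [fl_fl ha, fl_fl hb] at h3
    have hsurj : ∀ u, ∃ a, a ≤ d ∧ v a = u := by
      intro u
      refine ⟨fl d (σ.symm u).val, fl_le, ?_⟩
      rw [← hvq, Equiv.apply_symm_apply]
    have hmem : ∀ a b, v a ∈ Tm (Pat A) {v b} ↔
        (fl d b = fl d a + 1 ∨ (fl d a + 1 = d + 1 ∧ (fl d b = 0 ∨ fl d b = 1))) := by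
      intro a b
      rw [mem_single]
      have := hM ⟨fl d a, Nat.lt_succ_of_le fl_le⟩ ⟨fl d b, Nat.lt_succ_of_le fl_le⟩
      beta_reduce at this
      rw [comp_cons] at this
      exact this
    have W : Wiel (Pat A) v d := by
      refine ⟨hinj, hsurj, ?_, ?_⟩
      · intro i hi
        ext u
        obtain ⟨a, ha, rfl⟩ := hsurj u
        rw [hmem, Set.mem_singleton_iff]
        constructor
        · intro h
          have : a = i + 1 := by
            have := fl_spec d i
            have := fl_spec d a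
            omega
          rw [this]
        · intro h
          have h1 := hinj _ _ ha (by omega) h
          subst h1
          have := fl_spec d i
          have := fl_spec d (i + 1)
          omega
      · ext u
        obtain ⟨a, ha, rfl⟩ := hsurj u
        rw [hmem, Set.mem_insert_iff, Set.mem_singleton_iff]
        constructor
        · intro h
          have : a = 0 ∨ a = 1 := by
            unfold fl at h
            split_ifs at h <;> omega
          rcases this with h1 | h1
          · left; rw [h1]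
          · right; rw [h1]
        · rintro (h | h)
          · have h1 := hinj _ _ ha (by omega) h
            subst h1
            unfold fl
            split_ifs <;> omega
          · have h1 := hinj _ _ ha (by omega) h
            subst h1
            unfold fl
            split_ifs <;> omega
    have hcond : ∀ a, ∀ t : Fin k → Fin (d + 1), Pat A (v a) t →
        (fl d a + 2 < d + 1 → ∃ l, t l = v (fl d (fl d a + 1))) ∧
        (fl d a + 2 = d + 1 → ∃ l, t l = v (fl d d) ∨ t l = v (fl d 0)) ∧
        (fl d a + 1 = d + 1 → ∃ l, t l = v (fl d 0) ∨ t l = v (fl d 1)) := by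
      intro a t hR
      have h1 := hC ⟨fl d a, Nat.lt_succ_of_le fl_le⟩ (σ.symm ∘ t) (by
        beta_reduce
        rw [comp_cons]
        have e : (⇑σ ∘ ⇑σ.symm ∘ t) = t := by funext l; simp
        rw [e]
        exact hR)
      have back : ∀ l b, ((⇑σ.symm ∘ t) l).val = b → t l = v (fl d b) := by
        intro l b h
        rw [← h, ← hvq]
        simp
      refine ⟨?_, ?_, ?_⟩
      · intro h2
        obtain ⟨l, hl⟩ := h1.1 h2
        exact ⟨l, back l _ hl⟩
      · intro h2
        obtain ⟨l, hl | hl⟩ := h1.2.1 h2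
        · exact ⟨l, Or.inl (back l _ (by omega))⟩
        · exact ⟨l, Or.inr (back l _ hl)⟩
      · intro h2
        obtain ⟨l, hl | hl⟩ := h1.2.2 h2
        · exact ⟨l, Or.inl (back l _ hl)⟩
        · exact ⟨l, Or.inr (back l _ hl)⟩
    have f0 : fl d 0 = 0 := by unfold fl; simp
    have f1 : fl d 1 = d := by unfold fl; simp
    have fd : fl d d = 1 := by unfold fl; rw [if_neg (by omega)]; omega
    have C : Cond (Pat A) v d := by
      refine ⟨?_, ?_, ?_, ?_⟩
      · intro i h3 hid t hR
        have e : fl d i = d + 1 - i := by unfold fl; rw [if_neg (by omega)]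
        obtain ⟨l, hl⟩ := (hcond i t hR).1 (by omega)
        refine ⟨l, ?_⟩
        rw [hl, e]
        congr 1
        unfold fl
        rw [if_neg (by omega)]; omega
      · intro h2 t hR
        obtain ⟨l, hl⟩ := (hcond 0 t hR).1 (by rw [f0]; omega)
        refine ⟨l, ?_⟩
        rw [hl, f0, Nat.zero_add, f1]
      · intro h2 t hR
        have e : fl d 2 = d - 1 := by unfold fl; rw [if_neg (by omega)]; omega
        obtain ⟨l, hl⟩ := (hcond 2 t hR).2.1 (by rw [e]; omega)
        rw [fd, f0] at hl
        exact ⟨l, hl⟩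
      · intro t hR
        obtain ⟨l, hl⟩ := (hcond 1 t hR).2.2 (by rw [f1])
        rw [f0, f1] at hl
        exact ⟨l, hl.symm⟩
    refine ⟨fill_of_wiel (Pat A) hd W, v 0, ?_⟩
    intro h
    apply slow_of_cond (Pat A) hd W C
    rw [h]; trivial

end Pool.Agent.Q216.PT
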